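import Pool.Agent.Lib.MP_3166d6_co.Upper
import Pool.Agent.Lib.MP_3166d6_co.Lower

/-! # Discrepancy of random subsets of hypercube neighbourhoods

With probability tending to one the discrepancy of the family `(S v)` is of order `√n`. -/

open Finset Filter Topology

namespace Pool.Agent.Results.MP_3166d6_co.HypercubeDiscrepancy

open Pool.Agent.Lib.MP_3166d6_co

/-- the discrepancy of a family of finite subsets of `V` -/
noncomputable def disc {V J : Type} (S : J → Finset V) : ℕ :=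
  sInf {d : ℕ | ∃ χ : V → ℤ, (∀ x, χ x = 1 ∨ χ x = -1) ∧ ∀ j, |∑ x ∈ S j, χ x| ≤ (d : ℤ)}

/-- all families `(S v)` where `S v` is a set of neighbours of the vertex `v` of the
`n`-dimensional hypercube -/
def families (n : ℕ) : Finset ((Fin n → Bool) → Finset (Fin n → Bool)) :=
  Fintype.piFinset fun v => (univ.filter fun u => hammingDist v u = 1).powerset

lemma families_eq (n : ℕ) : families n = Fam n := rfl

lemma disc_mem {n : ℕ} (S : (Fin n → Bool) → Finset (Fin n → Bool)) :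
    ∃ χ : (Fin n → Bool) → ℤ, (∀ x, χ x = 1 ∨ χ x = -1) ∧
      ∀ v, |∑ x ∈ S v, χ x| ≤ (disc S : ℤ) := by
  have hne : {d : ℕ | ∃ χ : (Fin n → Bool) → ℤ, (∀ x, χ x = 1 ∨ χ x = -1) ∧
      ∀ j, |∑ x ∈ S j, χ x| ≤ (d : ℤ)}.Nonempty := by
    refine ⟨2 ^ n, fun _ => 1, fun _ => Or.inl rfl, fun j => ?_⟩
    have h : (S j).card ≤ 2 ^ n := by
      have := card_le_univ (S j)
      simpa using this
    rw [sum_const, nsmul_eq_mul, mul_one, Nat.abs_cast]
    exact_mod_cast h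
  exact Nat.sInf_mem hne

lemma disc_le {n : ℕ} (S : (Fin n → Bool) → Finset (Fin n → Bool)) (B : ℝ) (hB : 0 ≤ B)
    (h : ∃ χ : (Fin n → Bool) → ℤ, (∀ x, χ x = 1 ∨ χ x = -1) ∧
      ∀ v, ((|∑ x ∈ S v, χ x| : ℤ) : ℝ) ≤ B) : (disc S : ℝ) ≤ B := by
  obtain ⟨χ, hχ, hs⟩ := h
  have h1 : disc S ≤ ⌊B⌋₊ := by
    refine Nat.sInf_le ⟨χ, hχ, fun v => ?_⟩
    have h2 : |∑ x ∈ S v, χ x| ≤ ⌊B⌋ := Int.le_floor.mpr (hs v)
    rwa [← Int.natCast_floor_eq_floor hB] at h2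
  calc (disc S : ℝ) ≤ (⌊B⌋₊ : ℝ) := by exact_mod_cast h1
    _ ≤ B := Nat.floor_le hB

/-- the bit system of a family -/
noncomputable def bits {n : ℕ} (S : Q n → Finset (Q n)) (u : Q n) (i : Fin n) : Bool :=
  decide (u ∈ S (fl u i))

lemma Sof_bits {n : ℕ} {S : Q n → Finset (Q n)} (hS : S ∈ Fam n) : Sof (bits S) = S := by
  rw [Fam, Fintype.mem_piFinset] at hS
  ext v x
  simp only [Sof, mem_filter, bits, decide_eq_true_eq]
  constructor
  · rintro ⟨_, i, rfl, h⟩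
    rwa [fl_fl] at h
  · intro hx
    have hnb := mem_powerset.mp (hS v) hx
    refine ⟨hnb, ?_⟩
    rw [mem_nb, hammingDist_eq_one] at hnb
    obtain ⟨i, rfl⟩ := hnb
    refine ⟨i, rfl, ?_⟩
    rwa [fl_fl]

open Classical in
lemma card_upper {n : ℕ} (hn : 1 < n) {s : ℕ} (hs : 2 * (n + 1) ^ 5 ≤ 2 ^ s) :
    (((Fam n).filter fun S => ¬ ∃ χ : Q n → ℤ, (∀ v, χ v = 1 ∨ χ v = -1) ∧
      ∀ v, ((|∑ x ∈ S v, χ x| : ℤ) : ℝ) ≤ √(NN n) + 4 * s).card : ℝ) ≤
      (1 / 2) ^ n * (Fam n).card := by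
  have h1 := card_no_colouring hn hs
  have h2 : Fintype.card (Q n → Q n) = (Fam n).card := by
    rw [card_Fam]; simp
  rw [h2] at h1
  refine le_trans ?_ h1
  have h3 : ((Fam n).filter fun S => ¬ ∃ χ : Q n → ℤ, (∀ v, χ v = 1 ∨ χ v = -1) ∧
      ∀ v, ((|∑ x ∈ S v, χ x| : ℤ) : ℝ) ≤ √(NN n) + 4 * s).card ≤
      (univ.filter fun T : Q n → Q n => ¬ ∃ χ : Q n → ℤ, (∀ v, χ v = 1 ∨ χ v = -1) ∧
      ∀ v, ((|∑ x ∈ Sof T v, χ x| : ℤ) : ℝ) ≤ √(NN n) + 4 * s).card := by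
    refine card_le_card_of_injOn bits ?_ ?_
    · intro S hS
      rw [mem_coe, mem_filter] at hS ⊢
      refine ⟨mem_univ _, ?_⟩
      rw [Sof_bits hS.1]
      exact hS.2
    · intro S hS S' hS' h
      rw [mem_coe, mem_filter] at hS hS'
      rw [← Sof_bits hS.1, ← Sof_bits hS'.1, h]
  exact_mod_cast h3

lemma eventually_pow : ∀ᶠ n : ℕ in atTop, 2 * (n + 1) ^ 5 ≤ 2 ^ (Nat.sqrt n) := by
  have h1 : Tendsto (fun r : ℕ => (r : ℝ) ^ 10 / 2 ^ r) atTop (𝓝 0) :=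
    tendsto_pow_const_div_const_pow_of_one_lt 10 (by norm_num)
  have h2 : ∀ᶠ r : ℕ in atTop, (r : ℝ) ^ 10 / 2 ^ r ≤ 1 / 8 :=
    h1.eventually_le_const (by norm_num)
  have h3 : Tendsto (fun n : ℕ => Nat.sqrt n + 1) atTop atTop := by
    rw [tendsto_atTop]
    intro b
    filter_upwards [eventually_ge_atTop (b * b)] with n hn
    have : b ≤ Nat.sqrt n := Nat.le_sqrt.mpr hn
    omega
  filter_upwards [h3.eventually h2] with n hn
  set r := Nat.sqrt n with hr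
  have h4 : n + 1 ≤ (r + 1) ^ 2 := by
    have := Nat.lt_succ_sqrt n
    rw [← hr] at this
    rw [sq]; exact this
  rw [div_le_iff₀ (by positivity)] at hn
  have h5 : ((r : ℝ) + 1) ^ 10 ≤ 2 ^ r / 4 := by
    have : (2 : ℝ) ^ (r + 1) = 2 * 2 ^ r := by rw [pow_succ]; ring
    rw [this] at hn
    push_cast at hn
    linarith
  have h6 : 2 * ((n : ℝ) + 1) ^ 5 ≤ 2 ^ r := by
    have h7 : (n : ℝ) + 1 ≤ ((r : ℝ) + 1) ^ 2 := by exact_mod_cast h4
    have h8 : ((n : ℝ) + 1) ^ 5 ≤ (((r : ℝ) + 1) ^ 2) ^ 5 :=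
      pow_le_pow_left₀ (by positivity) h7 5
    rw [← pow_mul] at h8
    norm_num at h8
    have h9 : (0 : ℝ) < 2 ^ r := by positivity
    linarith
  exact_mod_cast h6

open Classical in
/-- **Discrepancy of random subsets of hypercube neighbourhoods**: it is of order `√n` with
probability tending to one. -/
theorem result : ∃ c C : ℝ, 0 < c ∧ 0 < C ∧
    Tendsto (fun n : ℕ =>
      (((families n).filter fun S => c * √n ≤ disc S ∧ disc S ≤ C * √n).card : ℝ) /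
        ((families n).card : ℝ)) atTop (𝓝 1) := by
  refine ⟨1 / 10, 5435, by norm_num, by norm_num, ?_⟩
  have hlow : Tendsto (fun n : ℕ => 1 - ((1 / 2 : ℝ) ^ n + (1 / 2 : ℝ) ^ (2 ^ n))) atTop (𝓝 1) := by
    have h1 : Tendsto (fun n : ℕ => (1 / 2 : ℝ) ^ n) atTop (𝓝 0) :=
      tendsto_pow_atTop_nhds_zero_of_lt_one (by norm_num) (by norm_num)
    have h2 : Tendsto (fun n : ℕ => (1 / 2 : ℝ) ^ (2 ^ n)) atTop (𝓝 0) :=
      h1.comp (tendsto_pow_atTop_atTop_of_one_lt (by norm_num))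
    have h3 := (tendsto_const_nhds (x := (1 : ℝ))).sub (h1.add h2)
    simpa using h3
  refine tendsto_of_tendsto_of_tendsto_of_le_of_le' hlow tendsto_const_nhds ?_ ?_
  · filter_upwards [eventually_pow, eventually_ge_atTop 400] with n hpow hn
    have hn' : (400 : ℝ) ≤ n := by exact_mod_cast hn
    have hsq : (20 : ℝ) ≤ √n := by
      apply Real.le_sqrt_of_sq_le; norm_num; exact hn
    have hsq2 : √(n : ℝ) ^ 2 = n := Real.sq_sqrt (by positivity)
    set k := ⌊√(n : ℝ) / 10⌋₊ with hk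
    have hk1 : (k : ℝ) ≤ √n / 10 := Nat.floor_le (by positivity)
    have hk2 : √(n : ℝ) / 10 < k + 1 := Nat.lt_floor_add_one _
    have hkn : 16 * (2 * k + 1) ^ 2 ≤ n := by
      have h1 : (16 * (2 * k + 1) ^ 2 : ℝ) ≤ n := by
        have h2 : (4 * (2 * (k : ℝ) + 1)) ≤ √n := by linarith
        have h3 : (4 * (2 * (k : ℝ) + 1)) ^ 2 ≤ √(n : ℝ) ^ 2 :=
          pow_le_pow_left₀ (by positivity) h2 2
        rw [hsq2] at h3
        linarith
      exact_mod_cast h1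
    have hL := lower_bound hkn
    have hU := card_upper (n := n) (by omega) hpow
    have hBC : √(NN n) + 4 * (Nat.sqrt n : ℝ) ≤ 5435 * √n := by
      have h1 : √(NN n) ≤ 5431 * √n := by
        rw [Real.sqrt_le_left (by positivity), mul_pow, hsq2]
        unfold NN
        norm_num
        linarith
      have h2 : (Nat.sqrt n : ℝ) ≤ √n := Real.nat_sqrt_le_real_sqrt
      linarith
    rw [families_eq]
    have hFpos : (0 : ℝ) < (Fam n).card := by
      rw [card_Fam]; positivity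
    rw [le_div_iff₀ hFpos]
    have hsub : Fam n ⊆ ((Fam n).filter fun S => 1 / 10 * √(n : ℝ) ≤ disc S ∧
        disc S ≤ 5435 * √(n : ℝ)) ∪
        (((Fam n).filter fun S => ∃ χ : Q n → ℤ, (∀ v, χ v = 1 ∨ χ v = -1) ∧
          ∀ v, |∑ x ∈ S v, χ x| ≤ (k : ℤ)) ∪
        ((Fam n).filter fun S => ¬ ∃ χ : Q n → ℤ, (∀ v, χ v = 1 ∨ χ v = -1) ∧
          ∀ v, ((|∑ x ∈ S v, χ x| : ℤ) : ℝ) ≤ √(NN n) + 4 * (Nat.sqrt n : ℕ))) := by
      intro S hS
      rw [mem_union, mem_union, mem_filter, mem_filter, mem_filter]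
      by_cases hA : ∃ χ : Q n → ℤ, (∀ v, χ v = 1 ∨ χ v = -1) ∧
          ∀ v, |∑ x ∈ S v, χ x| ≤ (k : ℤ)
      · right; left; exact ⟨hS, hA⟩
      by_cases hB : ∃ χ : Q n → ℤ, (∀ v, χ v = 1 ∨ χ v = -1) ∧
          ∀ v, ((|∑ x ∈ S v, χ x| : ℤ) : ℝ) ≤ √(NN n) + 4 * (Nat.sqrt n : ℕ)
      · left
        refine ⟨hS, ?_, ?_⟩
        · have h1 : k < disc S := by
            by_contra hlt
            push Not at hlt
            obtain ⟨χ, hχ, hs⟩ := disc_mem S
            refine hA ⟨χ, hχ, fun v => le_trans (hs v) ?_⟩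
            exact_mod_cast hlt
          have h2 : (k : ℝ) + 1 ≤ disc S := by exact_mod_cast h1
          linarith
        · exact le_trans (disc_le S _ (by positivity) hB) hBC
      · right; right; exact ⟨hS, hB⟩
    have hcard := (card_le_card hsub).trans ((card_union_le _ _).trans
      (Nat.add_le_add_left (card_union_le _ _) _))
    have hcard' : ((Fam n).card : ℝ) ≤
        (((Fam n).filter fun S => 1 / 10 * √(n : ℝ) ≤ disc S ∧
          disc S ≤ 5435 * √(n : ℝ)).card : ℝ) +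
        ((((Fam n).filter fun S => ∃ χ : Q n → ℤ, (∀ v, χ v = 1 ∨ χ v = -1) ∧
          ∀ v, |∑ x ∈ S v, χ x| ≤ (k : ℤ)).card : ℝ) +
        (((Fam n).filter fun S => ¬ ∃ χ : Q n → ℤ, (∀ v, χ v = 1 ∨ χ v = -1) ∧
          ∀ v, ((|∑ x ∈ S v, χ x| : ℤ) : ℝ) ≤ √(NN n) + 4 * (Nat.sqrt n : ℕ)).card : ℝ)) := by
      exact_mod_cast hcard
    linarith
  · filter_upwards with n
    apply div_le_one_of_le₀ _ (by positivity)
    exact_mod_cast card_filter_le _ _

end Pool.Agent.Results.MP_3166d6_co.HypercubeDiscrepancy
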